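import Pool.Agent.H19.PropDefs

set_option autoImplicit false

namespace Pool.Agent.Results.MP_f0eba7_co.K26

open Finset Pool.Agent.H19.PropCh

/-- Condition (H): all parts are even and the largest is at most half the number of vertices. -/
def CondH {t : ℕ} (n : Fin t → ℕ) : Prop := (∀ i, Even (n i)) ∧ ∀ i, n i ≤ ∑ j, n j / 2

def sz : Fin 2 → ℕ := ![2, 6]

def LL (v : Σ i : Fin 2, Fin (sz i)) : Finset ℕ :=
  if v.1 = 0 then {0, 2, 5, 6} else if v.2.1 < 2 then {0, 1, 2, 3}
  else if v.2.1 < 4 then {0, 1, 2, 4} else {0, 2, 3, 4}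

theorem not_four :
    ¬ PropChoosable (SimpleGraph.completeMultipartiteGraph (fun i => Fin (sz i))) 4 := by
  intro h
  obtain ⟨f, h1, h2, h3⟩ := h LL (by decide)
  have m0 : mult LL 0 = 8 := by decide
  have m2 : mult LL 2 = 8 := by decide
  have m1 : mult LL 1 = 4 := by decide
  have m3 : mult LL 3 = 4 := by decide
  have m4 : mult LL 4 = 4 := by decide
  have c0 := h3 0 (by decide)
  have c1 := h3 1 (by decide)
  have c2 := h3 2 (by decide)
  have c3 := h3 3 (by decide)
  have c4 := h3 4 (by decide)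
  rw [m0] at c0; rw [m1] at c1; rw [m2] at c2; rw [m3] at c3; rw [m4] at c4
  norm_num at c0 c1 c2 c3 c4
  set B : Finset (Σ i : Fin 2, Fin (sz i)) := univ.filter (fun v => v.1 = 1) with hB
  have hsum : B.card = ∑ c ∈ range 5, (B.filter (fun v => f v = c)).card := by
    apply card_eq_sum_card_fiberwise
    intro v hv
    have : ∀ v : (Σ i : Fin 2, Fin (sz i)), v.1 = 1 → ∀ x ∈ LL v, x < 5 := by decide
    simpa using this v (by simpa [hB] using hv) _ (h1 v)
  have hB6 : B.card = 6 := by decide
  have key : ∀ c, (B.filter (fun v => f v = c)).card = 0 ∨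
      (B.filter (fun v => f v = c)) = univ.filter (fun v => f v = c) := by
    intro c
    by_cases he : (B.filter (fun v => f v = c)).Nonempty
    · right
      obtain ⟨u, hu⟩ := he
      simp only [hB, mem_filter, mem_univ, true_and] at hu
      ext v
      simp only [hB, mem_filter, mem_univ, true_and, and_iff_right_iff_imp]
      intro hv
      by_contra hne
      exact h2 u v (by simpa [hu.1] using Ne.symm hne) (hu.2.trans hv.symm)
    · left
      rw [not_nonempty_iff_eq_empty] at he
      simp [he]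
  have key2 : ∀ c, c = 1 ∨ c = 3 ∨ c = 4 →
      (B.filter (fun v => f v = c)) = univ.filter (fun v => f v = c) := by
    intro c hc
    ext v
    simp only [hB, mem_filter, mem_univ, true_and, and_iff_right_iff_imp]
    intro hv
    have : ∀ v : (Σ i : Fin 2, Fin (sz i)), ∀ x ∈ LL v, x = 1 ∨ x = 3 ∨ x = 4 → v.1 = 1 := by
      decide
    exact this v c (hv ▸ h1 v) hc
  simp only [sum_range_succ, sum_range_zero] at hsum
  rw [key2 1 (by simp), key2 3 (by simp), key2 4 (by simp)] at hsum
  have k0 := key 0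
  have k2 := key 2
  rcases k0 with k0 | k0 <;> rcases k2 with k2 | k2 <;> rw [k0, k2] at hsum <;> omega

theorem result :
    ∃ (t : ℕ) (n : Fin t → ℕ), 2 ≤ t ∧ (∀ i, 1 ≤ n i) ∧ ¬ CondH n ∧
      chiPC (SimpleGraph.completeMultipartiteGraph (fun i => Fin (n i))) ≠
        ∑ i, (n i + 1) / 2 := by
  refine ⟨2, sz, le_rfl, by decide, fun h => absurd (h.2 1) (by decide), ?_⟩
  intro h
  have e : ∑ i, (sz i + 1) / 2 = 4 := by decide
  rw [e] at h
  have hne : {k | 1 ≤ k ∧ PropChoosable
      (SimpleGraph.completeMultipartiteGraph (fun i => Fin (sz i))) k}.Nonempty := by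
    by_contra h0
    rw [Set.not_nonempty_iff_eq_empty] at h0
    simp [chiPC, h0] at h
  have := Nat.sInf_mem hne
  unfold chiPC at h
  rw [h] at this
  exact not_four this.2

end Pool.Agent.Results.MP_f0eba7_co.K26
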